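import Mathlib

open Finset

namespace Pool.Agent.H673.LongCycle

/-- In a finite digraph without loops in which every vertex has at least `d ≥ 1` out-neighbours
there is a cycle with at least `d + 1` vertices. -/
theorem long_cycle {V : Type} [Fintype V] [Nonempty V] (R : V → V → Prop) (hirr : ∀ v, ¬ R v v)
    (d : ℕ) (hd : 1 ≤ d) (N : V → Finset V) (hN : ∀ v u, u ∈ N v ↔ R v u)
    (hdeg : ∀ v, d ≤ (N v).card) :
    ∃ (k : ℕ) (f : Fin (k + 2) → V), Function.Injective f ∧
      (∀ i, R (f i) (f (finRotate (k + 2) i))) ∧ d + 1 ≤ k + 2 := by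
  classical
  -- injective paths, indexed from the start; the last vertex is `f m`
  let P : ℕ → Prop := fun m => ∃ f : ℕ → V, (∀ i j, i ≤ m → j ≤ m → f i = f j → i = j) ∧
    ∀ i, i < m → R (f i) (f (i + 1))
  have hP0 : P 0 := by
    refine ⟨fun _ => Classical.arbitrary V, fun i j hi hj _ => by omega, fun i hi => by omega⟩
  have hPb : ∀ m, P m → m ≤ Fintype.card V := by
    rintro m ⟨f, hf, _⟩
    have : Function.Injective (fun i : Fin (m + 1) => f i) := by
      intro i j hij
      exact Fin.ext (hf i j (by omega) (by omega) hij)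
    have := Fintype.card_le_of_injective _ this
    rw [Fintype.card_fin] at this
    omega
  -- the longest one
  obtain ⟨m, hm, hmax⟩ : ∃ m, P m ∧ ∀ m', P m' → m' ≤ m := by
    refine ⟨Nat.findGreatest P (Fintype.card V), ?_, ?_⟩
    · exact Nat.findGreatest_spec (P := P) (Nat.zero_le _) hP0
    · intro m' hm'
      exact Nat.le_findGreatest (hPb m' hm') hm'
  obtain ⟨f, hf, hfR⟩ := hm
  -- all out-neighbours of the last vertex are on the path
  have hon : ∀ u, R (f m) u → ∃ i, i < m ∧ f i = u := by
    intro u hu
    by_contra hcon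
    push Not at hcon
    have hne : ∀ i, i ≤ m → f i ≠ u := by
      intro i hi h
      rcases Nat.lt_or_eq_of_le hi with h1 | h1
      · exact hcon i h1 h
      · rw [h1] at h; rw [← h] at hu; exact hirr _ hu
    have : P (m + 1) := by
      refine ⟨fun i => if i = m + 1 then u else f i, ?_, ?_⟩
      · intro i j hi hj hij
        by_cases h1 : i = m + 1 <;> by_cases h2 : j = m + 1
        · omega
        · simp only [h1, h2, if_true, if_false] at hij
          exact absurd hij.symm (hne j (by omega))
        · simp only [h1, h2, if_true, if_false] at hij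
          exact absurd hij (hne i (by omega))
        · simp only [h1, h2, if_false] at hij
          exact hf i j (by omega) (by omega) hij
      · intro i hi
        have h1 : i ≠ m + 1 := by omega
        by_cases h2 : i + 1 = m + 1
        · have : i = m := by omega
          simp only [h1, h2, if_true, if_false]
          rw [this]; exact hu
        · simp only [h1, h2, if_false]
          exact hfR i (by omega)
    have := hmax _ this
    omega
  -- the first out-neighbour on the path
  have hex : ∃ i, R (f m) (f i) ∧ i < m := by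
    have : (N (f m)).Nonempty := card_pos.1 (lt_of_lt_of_le hd (hdeg _))
    obtain ⟨u, hu⟩ := this
    obtain ⟨i, hi, rfl⟩ := hon u ((hN _ _).1 hu)
    exact ⟨i, (hN _ _).1 hu, hi⟩
  set a := Nat.find hex with ha
  have ha1 := (Nat.find_spec hex).1
  have ha2 := (Nat.find_spec hex).2
  have hamin : ∀ i, i < m → R (f m) (f i) → a ≤ i := by
    intro i hi h
    exact Nat.find_min' hex ⟨h, hi⟩
  -- length
  have hlen : d ≤ m - a := by
    have hsub : N (f m) ⊆ (Finset.Ico a m).image f := by
      intro u hu
      obtain ⟨i, hi, rfl⟩ := hon u ((hN _ _).1 hu)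
      rw [mem_image]
      exact ⟨i, mem_Ico.2 ⟨hamin i hi ((hN _ _).1 hu), hi⟩, rfl⟩
    have := (hdeg (f m)).trans ((card_le_card hsub).trans card_image_le)
    rwa [Nat.card_Ico] at this
  obtain ⟨k, hk⟩ : ∃ k, m = a + (k + 1) := ⟨m - a - 1, by omega⟩
  refine ⟨k, fun i => f (a + i), ?_, ?_, by omega⟩
  · intro i j hij
    have := hf (a + i) (a + j) (by omega) (by omega) hij
    exact Fin.ext (by omega)
  · intro i
    by_cases hi : i = Fin.last (k + 1)
    · rw [hi, finRotate_last]
      show R (f (a + (k + 1))) (f (a + 0))
      rw [← hk]; exact ha1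
    · have hlt : (i : ℕ) < k + 1 := by
        have := i.2
        have h2 : (i : ℕ) ≠ k + 1 := fun h => hi (Fin.ext h)
        omega
      have : finRotate (k + 2) i = ⟨(i : ℕ) + 1, by omega⟩ := by
        have := finRotate_of_lt hlt
        exact this
      rw [this]
      show R (f (a + i)) (f (a + (i + 1)))
      exact hfR (a + i) (by omega)

end Pool.Agent.H673.LongCycle
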